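import Mathlib
import Pool.Agent.Helper583.WDBasic

/-!
# RRT^2_2 is not Weihrauch reducible to thin-HT^{=2}

The rainbow Ramsey theorem for 2-bounded colourings of pairs is not Weihrauch reducible, not even
in the continuous sense, to the thin set version of Hindman's theorem for sums of exactly two
elements (where the omitted colour is not part of the solution).
-/

namespace Pool.Agent.Results.MP_527a81_lc.NotReducible

open Pool.Agent.Helper583.WD

/-- The rainbow Ramsey theorem for pairs.  An instance `p` codes the colouring which gives to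
`{i, j}` with `i < j` the colour `p (Nat.pair i j)`; each colour is used at most twice.  A solution
is the characteristic function of an infinite set whose pairs have pairwise different colours. -/
def RRT : Problem where
  inst p := ∀ v : ℕ, Set.encard {e : ℕ × ℕ | e.1 < e.2 ∧ p (Nat.pair e.1 e.2) = v} ≤ 2
  sol p q := (∀ n, q n = 0 ∨ q n = 1) ∧ {n | q n = 1}.Infinite ∧
    ∀ i j i' j', i < j → i' < j' → q i = 1 → q j = 1 → q i' = 1 → q j' = 1 →
      p (Nat.pair i j) = p (Nat.pair i' j') → i = i' ∧ j = j'

/-- The thin set version of Hindman's theorem for sums of exactly two elements.  Every colouring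
`p` of the natural numbers is an instance.  A solution is the characteristic function of an
infinite set `S` such that some colour `n` is not a value `p (x + y)` for `x < y` in `S`. -/
def ThinHT : Problem where
  inst _ := True
  sol p q := (∀ n, q n = 0 ∨ q n = 1) ∧ {n | q n = 1}.Infinite ∧
    ∃ n, ∀ x y, x < y → q x = 1 → q y = 1 → p (x + y) ≠ n

open Filter in
/-- Infinite Ramsey theorem for pairs. -/
theorem ramsey {κ : Type} [Finite κ] (col : ℕ → ℕ → κ) :
    ∃ g : ℕ → ℕ, StrictMono g ∧ ∃ k : κ, ∀ i j, i < j → col (g i) (g j) = k := by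
  classical
  let U : Ultrafilter ℕ := hyperfilter ℕ
  have h1 : ∀ i, ∃ k : κ, ∀ᶠ j in (U : Filter ℕ), col i j = k := by
    intro i
    obtain ⟨k, hk⟩ := (U.map (col i)).eq_pure_of_finite
    refine ⟨k, ?_⟩
    have : ({k} : Set κ) ∈ U.map (col i) := by
      rw [hk]; exact Set.mem_singleton _
    exact this
  choose K hK using h1
  have h2 : ∃ k : κ, ∀ᶠ i in (U : Filter ℕ), K i = k := by
    obtain ⟨k, hk⟩ := (U.map K).eq_pure_of_finite
    refine ⟨k, ?_⟩
    have : ({k} : Set κ) ∈ U.map K := by
      rw [hk]; exact Set.mem_singleton _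
    exact this
  obtain ⟨k, hk⟩ := h2
  obtain ⟨g, hg1, hg2⟩ := exists_seq_of_forall_finset_exists (fun i => K i = k)
    (fun i j => i < j ∧ col i j = k) (by
      intro s hs
      have hgt : ∀ i ∈ s, ∀ᶠ j in (U : Filter ℕ), i < j ∧ col i j = k := by
        intro i hi
        have ha : ∀ᶠ j in (U : Filter ℕ), i < j := by
          have : ∀ᶠ j in (Filter.cofinite : Filter ℕ), i < j := by
            rw [Nat.cofinite_eq_atTop]; exact Filter.eventually_gt_atTop i
          exact Filter.hyperfilter_le_cofinite this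
        filter_upwards [ha, hK i] with j hj1 hj2
        exact ⟨hj1, by rw [hj2]; exact hs i hi⟩
      have hall : ∀ᶠ j in (U : Filter ℕ), ∀ i ∈ s, i < j ∧ col i j = k :=
        (Filter.eventually_all_finset s).2 hgt
      obtain ⟨y, hy⟩ := (hk.and hall).exists
      exact ⟨y, hy.1, hy.2⟩)
  exact ⟨g, strictMono_nat_of_lt_succ (fun n => (hg2 n (n+1) (Nat.lt_succ_self n)).1), k,
    fun i j hij => (hg2 i j hij).2⟩

/-- Every finite set is an initial part of a solution of every instance of `ThinHT`. -/
theorem ext_sol (r q0 : ℕ → ℕ) (hq0 : ∀ n, q0 n = 0 ∨ q0 n = 1) (u : ℕ) :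
    ∃ q, ThinHT.sol r q ∧ ∀ i < u, q i = q0 i := by
  classical
  -- many colours
  set N := u + u * u + 2 with hN
  let f : ℕ → (Fin u → Fin (N + 1)) := fun y x => ⟨min (r (x + y)) N, by omega⟩
  obtain ⟨w, hw⟩ := Finite.exists_infinite_fiber f
  have hY : {y | f y = w}.Infinite := Set.infinite_coe_iff.1 hw
  set Y := {y | f y = w ∧ u ≤ y} with hYd
  have hYinf : Y.Infinite := by
    have := hY.sdiff (Set.finite_lt_nat u)
    refine this.mono fun y hy => ⟨hy.1, ?_⟩
    by_contra hcon
    exact hy.2 (show y < u by omega)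
  let bad : Finset ℕ := (Finset.univ.image fun x : Fin u => (w x : ℕ)) ∪
    (Finset.univ.image fun e : Fin u × Fin u => r (e.1 + e.2))
  have hbad : bad.card ≤ u + u * u := by
    refine (Finset.card_union_le _ _).trans ?_
    refine add_le_add (Finset.card_image_le.trans (by simp)) (Finset.card_image_le.trans ?_)
    simp
  have hfree : 2 ≤ (Finset.range N \ bad).card := by
    have := Finset.le_card_sdiff bad (Finset.range N)
    rw [Finset.card_range] at this
    omega
  obtain ⟨a, ha, a', ha', haa⟩ := Finset.one_lt_card.1 (show 1 < (Finset.range N \ bad).card by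
    omega)
  rw [Finset.mem_sdiff, Finset.mem_range] at ha ha'
  -- a homogeneous subset
  let en : ℕ → ℕ := Nat.nth Y
  have hen : StrictMono en := Nat.nth_strictMono hYinf
  have henY : ∀ n, en n ∈ Y := fun n => Nat.nth_mem_of_infinite hYinf n
  obtain ⟨g, hg, k, hk⟩ := ramsey (fun i j => decide (r (en i + en j) = a))
  obtain ⟨n, hn, hn', hng⟩ : ∃ n, n < N ∧ n ∉ bad ∧
      ∀ i j, i < j → r (en (g i) + en (g j)) ≠ n := by
    cases k with
    | true =>
      refine ⟨a', ha'.1, ha'.2, fun i j hij h => haa ?_⟩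
      have := of_decide_eq_true (hk i j hij)
      rw [← this, h]
    | false => exact ⟨a, ha.1, ha.2, fun i j hij => of_decide_eq_false (hk i j hij)⟩
  refine ⟨fun i => if i < u then q0 i else if ∃ j, en (g j) = i then 1 else 0,
    ⟨fun i => ?_, ?_, n, ?_⟩, fun i hi => if_pos hi⟩
  · simp only
    split_ifs
    · exact hq0 i
    · exact Or.inr rfl
    · exact Or.inl rfl
  · have hinj : Function.Injective fun j => en (g j) := (hen.comp hg).injective
    refine (Set.infinite_range_of_injective hinj).mono ?_
    rintro _ ⟨j, rfl⟩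
    have h1 : ¬ en (g j) < u := by have := (henY (g j)).2; omega
    show (if en (g j) < u then q0 (en (g j)) else if ∃ j', en (g j') = en (g j) then 1 else 0) = 1
    rw [if_neg h1, if_pos ⟨j, rfl⟩]
  · intro x y hxy hx hy
    simp only at hx hy
    by_cases hyu : y < u
    · have hxu : x < u := by omega
      intro h
      apply hn'
      refine Finset.mem_union_right _ (Finset.mem_image.2 ⟨(⟨x, hxu⟩, ⟨y, hyu⟩),
        Finset.mem_univ _, h⟩)
    · rw [if_neg hyu] at hy
      split_ifs at hy with h1
      obtain ⟨j, rfl⟩ := h1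
      by_cases hxu : x < u
      · intro h
        apply hn'
        have h2 : f (en (g j)) = w := (henY (g j)).1
        have h3 : (w ⟨x, hxu⟩ : ℕ) = n := by
          rw [← h2]
          show min (r (x + en (g j))) N = n
          rw [h]; omega
        refine Finset.mem_union_left _ (Finset.mem_image.2 ⟨⟨x, hxu⟩, Finset.mem_univ _, h3⟩)
      · rw [if_neg hxu] at hx
        split_ifs at hx with h2
        obtain ⟨i, rfl⟩ := h2
        exact hng i j (by
          by_contra hcon
          have := (hen.comp hg).monotone (not_lt.1 hcon)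
          exact absurd hxy (not_lt.2 this))

theorem main : ¬ CLE RRT ThinHT := by
  classical
  rintro ⟨φ, ψ, hred⟩
  -- the colouring with pairwise different colours
  have h0 : RRT.inst (fun n => n) := by
    intro v
    have : {e : ℕ × ℕ | e.1 < e.2 ∧ Nat.pair e.1 e.2 = v} ⊆ {Nat.unpair v} := by
      rintro ⟨i, j⟩ ⟨-, h⟩
      rw [Set.mem_singleton_iff, ← h, Nat.unpair_pair]
    refine (Set.encard_le_encard this).trans ?_
    rw [Set.encard_singleton]; exact one_le_two
  obtain ⟨r0, -, -, hr0⟩ := hred _ h0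
  obtain ⟨q0, hq0, -⟩ := ext_sol r0 (fun _ => 0) (fun _ => Or.inl rfl) 0
  obtain ⟨s0, hs0, hs0'⟩ := hr0 q0 hq0
  obtain ⟨a, ha⟩ := hs0'.2.1.nonempty
  obtain ⟨b, hb, hab⟩ := hs0'.2.1.exists_gt a
  obtain ⟨ma, hma⟩ := (hs0 a).1
  obtain ⟨mb, hmb⟩ := (hs0 b).1
  set J := ma + mb + b + 1 with hJ
  set p1 : ℕ → ℕ := fun n => if n.unpair.1 = b ∧ J ≤ n.unpair.2 then Nat.pair a n.unpair.2 else n
    with hp1
  have hagree : ∀ i < ma + mb, p1 i = i := by
    intro i hi
    have : i.unpair.2 ≤ i := Nat.unpair_right_le i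
    show (if _ then _ else _) = _
    rw [if_neg (by omega)]
  have h1 : RRT.inst p1 := by
    intro v
    have : {e : ℕ × ℕ | e.1 < e.2 ∧ p1 (Nat.pair e.1 e.2) = v} ⊆
        {Nat.unpair v, (b, (Nat.unpair v).2)} := by
      rintro ⟨i, j⟩ ⟨-, h⟩
      simp only [hp1, Nat.unpair_pair] at h
      split_ifs at h with h2
      · right
        rw [Set.mem_singleton_iff, ← h, Nat.unpair_pair, h2.1]
      · left
        rw [← h, Nat.unpair_pair]
    refine (Set.encard_le_encard this).trans ?_
    refine (Set.encard_insert_le _ _).trans ?_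
    rw [Set.encard_singleton]
    exact le_of_eq one_add_one_eq_two
  obtain ⟨r1, -, -, hr1⟩ := hred _ h1
  obtain ⟨q1, hq1, hq1'⟩ := ext_sol r1 q0 hq0.1 (ma + mb)
  obtain ⟨s1, hs1, hs1'⟩ := hr1 q1 hq1
  have hjoin : ∀ i < ma + mb, join (fun n => n) q0 i = join p1 q1 i :=
    join_congr (fun i hi => (hagree i hi).symm) (fun i hi => (hq1' i hi).symm)
  have e1 : s1 a = 1 := by
    have h2 : pre (join (fun n => n) q0) ma = pre (join p1 q1) ma :=
      pre_congr fun i hi => hjoin i (by omega)
    rw [h2] at hma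
    rw [← (hs1 a).2 _ _ hma]; exact ha
  have e2 : s1 b = 1 := by
    have h2 : pre (join (fun n => n) q0) mb = pre (join p1 q1) mb :=
      pre_congr fun i hi => hjoin i (by omega)
    rw [h2] at hmb
    rw [← (hs1 b).2 _ _ hmb]; exact hb
  obtain ⟨y, hy, hyJ⟩ := hs1'.2.1.exists_gt J
  have h3 : p1 (Nat.pair a y) = p1 (Nat.pair b y) := by
    simp only [hp1, Nat.unpair_pair]
    rw [if_neg (fun h => hab.ne h.1), if_pos ⟨trivial, hyJ.le⟩]
  have h4 := hs1'.2.2 a y b y (by omega) (by omega) e1 hy e2 hy h3
  exact absurd h4.1 hab.ne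

/-- `RRT` is not Weihrauch reducible to `ThinHT`, not even with arbitrary continuous functionals in
place of computable ones. -/
theorem result : ¬ WLE RRT ThinHT ∧ ¬ CLE RRT ThinHT := ⟨fun h => main h.cle, main⟩

end Pool.Agent.Results.MP_527a81_lc.NotReducible
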